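import Pool.Agent.K4H28.CF.Ext
import Pool.Agent.K4H28.MT.Opn

/-!
# No unramified additive characters
-/

set_option autoImplicit false
set_option linter.style.haveILetI false
set_option linter.unusedSectionVars false

open NumberField Ideal Module IntermediateField Pool.Agent.W569.FM Pool.Agent.Helper832_EG
open Pool.Agent.W401.Cheb IsDedekindDomain
open scoped Pointwise nonZeroDivisors Nat

namespace Pool.Agent.K4H28.CF

/-- An unramified cyclic extension of prime power degree of a totally complex field `K` has degree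
at most the class number of `K`. -/
def FI : Prop := ∀ (K L : Type) [Field K] [NumberField K] [Field L] [NumberField L] [Algebra K L]
  [IsGalois K L] [IsTotallyComplex K] (p k : ℕ) [Fact p.Prime], Nat.card Gal(L/K) = p ^ k →
  (∃ σ : Gal(L/K), ∀ g : Gal(L/K), g ∈ Subgroup.zpowers σ) →
  (∀ P : Ideal (𝓞 L), P.IsMaximal → P.ramificationIdx (𝓞 K) = 1) → p ^ k ≤ classNumber K

/-- A finite abelian group with an element whose `h!`-th power is not trivial has a cyclic quotient
of prime power order greater than `h`. -/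
theorem exists_cyc {Q : Type} [CommGroup Q] [Finite Q] (h : ℕ) (q : Q) (hq : q ^ (h !) ≠ 1) :
    ∃ (p k : ℕ) (_ : Fact p.Prime) (C : Type) (_ : CommGroup C) (F : Q →* C), h < p ^ k ∧
      Nat.card C = p ^ k ∧ IsCyclic C ∧ Function.Surjective F := by
  obtain ⟨ψ, hψ⟩ := CommGroup.exists_apply_ne_one_of_hasEnoughRootsOfUnity Q ℂ hq
  haveI : Finite ψ.range := Finite.of_surjective _ ψ.rangeRestrict_surjective
  haveI hcyc : IsCyclic ψ.range := inferInstance
  set m := Nat.card ψ.range with hm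
  have hm0 : 0 < m := Nat.card_pos
  have h1 : ¬ m ∣ h ! := by
    rintro ⟨c, hc⟩
    apply hψ
    have h2 : (⟨ψ q, ⟨q, rfl⟩⟩ : ψ.range) ^ m = 1 := pow_card_eq_one'
    have h3 := congrArg Subtype.val h2
    have h4 : (ψ q) ^ m = 1 := h3
    rw [map_pow, hc, pow_mul, h4, one_pow]
  rw [Nat.dvd_iff_prime_pow_dvd_dvd] at h1
  push Not at h1
  obtain ⟨p, k, hp, hpm, hph⟩ := h1
  haveI : Fact p.Prime := ⟨hp⟩
  obtain ⟨c, hc⟩ := hpm
  have hpk : 0 < p ^ k := pow_pos hp.pos k
  have hc0 : 0 < c := Nat.pos_of_ne_zero fun h0 => by rw [h0, mul_zero] at hc; omega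
  refine ⟨p, k, inferInstance, (powMonoidHom c : ψ.range →* ψ.range).range, inferInstance,
    (powMonoidHom c : ψ.range →* ψ.range).rangeRestrict.comp ψ.rangeRestrict, ?_, ?_, ?_, ?_⟩
  · by_contra hle
    exact hph (Nat.dvd_factorial hpk (not_lt.1 hle))
  · rw [IsCyclic.card_powMonoidHom_range, ← hm, hc, Nat.gcd_eq_right (Dvd.intro_left _ rfl),
      Nat.mul_div_cancel _ hc0]
  · infer_instance
  · exact (MonoidHom.rangeRestrict_surjective _).comp ψ.rangeRestrict_surjective

/-- Totally complex finite extensions with fixing subgroup in a given open subgroup. -/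
theorem exists_tc {K : Type} [Field K] [NumberField K] (U : Subgroup (GK K))
    (hU : IsOpen (U : Set (GK K))) :
    ∃ (D : IntermediateField K (AlgebraicClosure K)), FiniteDimensional K D ∧
      D.fixingSubgroup ≤ U ∧ ∀ (_ : NumberField D), IsTotallyComplex D := by
  have h1 : (U : Set (GK K)) ∈ nhds (1 : GK K) := hU.mem_nhds U.one_mem
  rw [krullTopology_mem_nhds_one_iff] at h1
  obtain ⟨E, hE, hEU⟩ := h1
  obtain ⟨i, hi⟩ := IsAlgClosed.exists_pow_nat_eq (-1 : AlgebraicClosure K) (n := 2) two_pos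
  have hint : IsIntegral K i := Algebra.IsIntegral.isIntegral _
  haveI : FiniteDimensional K K⟮i⟯ := adjoin.finiteDimensional hint
  refine ⟨E ⊔ K⟮i⟯, inferInstance, (fixingSubgroup_le le_sup_left).trans hEU, fun hn => ?_⟩
  refine ⟨fun v => ?_⟩
  rw [← InfinitePlace.not_isReal_iff_isComplex]
  intro hv
  have hmem : i ∈ E ⊔ K⟮i⟯ := (le_sup_right : K⟮i⟯ ≤ E ⊔ K⟮i⟯) (mem_adjoin_simple_self K i)
  have h2 : (⟨i, hmem⟩ : ↥(E ⊔ K⟮i⟯)) ^ 2 = -1 := Subtype.ext hi
  have h3 := congrArg (InfinitePlace.embedding_of_isReal hv) h2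
  rw [map_pow, map_neg, map_one] at h3
  nlinarith [sq_nonneg (InfinitePlace.embedding_of_isReal hv ⟨i, hmem⟩)]

/-- Inertia at a maximal ideal of the ring of all algebraic integers. -/
theorem inert_of {K : Type} [Field K] [NumberField K] {Q : Ideal (OO K)} (hQ : Q.IsMaximal)
    {τ : GK K} (hτ : τ ∈ inertia Q) : ∃ v, IsInert (K := K) v τ := by
  haveI := hQ
  haveI : Algebra.IsIntegral (𝓞 K) (𝓞 (AlgebraicClosure K)) :=
    Algebra.IsIntegral.tower_top (R := ℤ)
  have hm : (Q.under (𝓞 K)).IsMaximal := Ideal.IsMaximal.under (𝓞 K) Q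
  have h0 : Q.under (𝓞 K) ≠ ⊥ := Ideal.IsMaximal.ne_bot_of_isIntegral_int _
  exact ⟨⟨Q.under (𝓞 K), hm.isPrime, h0⟩, Q, hQ, rfl, hτ⟩

/-- **A number field has no unramified additive characters.** -/
theorem noUnr_of (hFI : FI) (K Ω : Type) [Field K] [NumberField K] [Field Ω] [CharZero Ω]
    [TopologicalSpace Ω] [T2Space Ω] : Pool.Agent.K4H28.MT.NoUnr K Ω := by
  classical
  intro U hU χ hχ hadd hin σ0 hσ0
  by_contra hne
  obtain ⟨D, hDfin, hDU, hDc⟩ := exists_tc U hU
  haveI hDn : NumberField D := NumberField.of_module_finite K D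
  haveI : IsTotallyComplex D := hDc hDn
  have hDopen : IsOpen (D.fixingSubgroup : Set (GK K)) := D.fixingSubgroup_isOpen
  have hDclosed : IsClosed (D.fixingSubgroup : Set (GK K)) := Subgroup.isClosed_of_isOpen _ hDopen
  have hone : χ 1 = 0 := by
    have h1 := hadd 1 U.one_mem 1 U.one_mem
    rw [mul_one] at h1
    exact left_eq_add.1 h1
  have hpow : ∀ σ ∈ U, ∀ n : ℕ, χ (σ ^ n) = n * χ σ := by
    intro σ hσ n
    induction n with
    | zero => rw [pow_zero, hone, Nat.cast_zero, zero_mul]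
    | succ n ih =>
      rw [pow_succ, hadd _ (U.pow_mem hσ n) _ hσ, ih, Nat.cast_succ, add_mul, one_mul]
  -- an element of the fixing subgroup
  haveI : Finite (GK K ⧸ D.fixingSubgroup) := Subgroup.quotient_finite_of_isOpen _ hDopen
  haveI : D.fixingSubgroup.FiniteIndex := Subgroup.finiteIndex_of_finite_quotient
  obtain ⟨n, hn0, -, hn⟩ := Subgroup.exists_pow_mem_of_index_ne_zero
    (Subgroup.FiniteIndex.index_ne_zero (H := D.fixingSubgroup)) σ0
  set g1 : D.fixingSubgroup := ⟨σ0 ^ n, hn⟩ with hg1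
  have hχ1 : χ g1 ≠ 0 := by
    rw [hg1, hpow σ0 hσ0]
    exact mul_ne_zero (Nat.cast_ne_zero.2 hn0.ne') hne
  set h := classNumber D with hh
  set τ : D.fixingSubgroup := g1 ^ (h !) with hτ
  have hχτ : χ τ ≠ 0 := by
    rw [hτ, Subgroup.coe_pow, hpow _ (hDU g1.2)]
    exact mul_ne_zero (Nat.cast_ne_zero.2 (Nat.factorial_ne_zero _)) hχ1
  -- the kernel
  let f : D.fixingSubgroup →* Multiplicative Ω :=
    { toFun := fun g => Multiplicative.ofAdd (χ g)
      map_one' := by rw [Subgroup.coe_one, hone]; rfl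
      map_mul' := fun x y => by rw [Subgroup.coe_mul, hadd _ (hDU x.2) _ (hDU y.2)]; rfl }
  have hfval : ∀ g : D.fixingSubgroup, g ∈ f.ker ↔ χ g = 0 := by
    intro g
    rw [MonoidHom.mem_ker]
    exact ⟨fun h => Multiplicative.ofAdd.injective h, fun h => by
      change Multiplicative.ofAdd (χ g) = 1
      rw [h]
      rfl⟩
  -- an open normal subgroup
  have hopen : IsOpen {x : GK K | χ ((τ : GK K) * x) ≠ 0} :=
    isOpen_ne.preimage (hχ.comp (continuous_const.mul continuous_id))
  have hmem : {x : GK K | χ ((τ : GK K) * x) ≠ 0} ∈ nhds (1 : GK K) :=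
    hopen.mem_nhds (by rw [Set.mem_ofPred_eq, mul_one]; exact hχτ)
  rw [krullTopology_mem_nhds_one_iff_of_normal] at hmem
  obtain ⟨E, hEfin, hEn, hE⟩ := hmem
  haveI := hEn
  haveI : E.fixingSubgroup.Normal := by
    rw [← IntermediateField.restrictNormalHom_ker E]
    infer_instance
  set V : Subgroup D.fixingSubgroup := f.ker ⊔ E.fixingSubgroup.subgroupOf D.fixingSubgroup with hV
  haveI : V.Normal := inferInstance
  have hVo : IsOpen (V : Set D.fixingSubgroup) := by
    refine Subgroup.isOpen_mono (H₁ := E.fixingSubgroup.subgroupOf D.fixingSubgroup)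
      le_sup_right ?_
    exact E.fixingSubgroup_isOpen.preimage continuous_subtype_val
  have hτV : τ ∉ V := by
    intro hmem
    have h1 : (τ : D.fixingSubgroup) ∈
        ((f.ker : Set D.fixingSubgroup) * (E.fixingSubgroup.subgroupOf D.fixingSubgroup : Set _)) := by
      rw [← Subgroup.mul_normal]
      exact hmem
    obtain ⟨a, ha, b, hb, hab⟩ := Set.mem_mul.1 h1
    have h2 : ((b : GK K))⁻¹ ∈ E.fixingSubgroup := E.fixingSubgroup.inv_mem hb
    refine hE h2 ?_
    have h3 : (τ : GK K) * (b : GK K)⁻¹ = (a : GK K) := by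
      rw [← hab, Subgroup.coe_mul, mul_inv_cancel_right]
    rw [h3]
    exact (hfval a).1 ha
  haveI : CompactSpace D.fixingSubgroup := isCompact_iff_compactSpace.1 hDclosed.isCompact
  haveI : Finite (D.fixingSubgroup ⧸ V) := Subgroup.quotient_finite_of_isOpen _ hVo
  letI : CommGroup (D.fixingSubgroup ⧸ V) :=
    { (inferInstance : Group (D.fixingSubgroup ⧸ V)) with
      mul_comm := by
        intro a b
        obtain ⟨a, rfl⟩ := QuotientGroup.mk_surjective a
        obtain ⟨b, rfl⟩ := QuotientGroup.mk_surjective b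
        rw [← QuotientGroup.mk_mul, ← QuotientGroup.mk_mul]
        refine QuotientGroup.eq.2 (le_sup_left (a := f.ker) ?_)
        rw [MonoidHom.mem_ker, map_mul, map_inv, map_mul, map_mul, mul_comm (f a) (f b),
          inv_mul_cancel] }
  obtain ⟨p, k, hp, C, hC, F, hlt, hcard, hcyc, hF⟩ := exists_cyc (Q := D.fixingSubgroup ⧸ V) h
    (QuotientGroup.mk g1) (by
      intro h1
      apply hτV
      rw [← QuotientGroup.mk_pow] at h1
      exact (QuotientGroup.eq_one_iff _).1 h1)
  let F' : D.fixingSubgroup →* C := F.comp (QuotientGroup.mk' V)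
  have hF's : Function.Surjective F' := hF.comp (QuotientGroup.mk'_surjective V)
  have hF'V : ∀ g ∈ V, F' g = 1 := by
    intro g hg
    change F (QuotientGroup.mk g) = 1
    rw [(QuotientGroup.eq_one_iff g).2 hg, map_one]
  have hF'o : IsOpen (F'.ker : Set D.fixingSubgroup) :=
    Subgroup.isOpen_mono (H₁ := V) (fun g hg => hF'V g hg) hVo
  obtain ⟨M, hMn, hMg, ⟨e⟩, hM⟩ := exists_extA D F' hF's hF'o
  have hcard' : Nat.card Gal(M/D) = p ^ k := by rw [Nat.card_congr e.toEquiv, hcard]
  haveI : IsCyclic Gal(M/D) := isCyclic_of_surjective e.symm e.symm.surjective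
  have h1 := hFI D M p k hcard' IsCyclic.exists_generator (fun P hP => by
    obtain ⟨Q, hQ, rfl⟩ := exists_above D M P hP
    refine hM Q hQ fun t ht => hF'V t (le_sup_left (a := f.ker) ((hfval t).2 ?_))
    obtain ⟨v, hv⟩ := inert_of hQ ht
    exact hin _ (hDU t.2) v hv)
  omega

end Pool.Agent.K4H28.CF
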