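import Pool.Agent.Helper832_EG.PD11

/-!
# Extensions of number fields from homomorphisms with open kernel
-/

set_option autoImplicit false
set_option linter.style.haveILetI false
set_option linter.unusedSectionVars false

open NumberField Ideal Module IntermediateField Pool.Agent.W569.FM Pool.Agent.Helper832_EG
open scoped Pointwise nonZeroDivisors

namespace Pool.Agent.K4H28.CF

variable {k : Type} [Field k] [NumberField k]

/-- The Galois extension of a finite extension `D` attached to a surjective homomorphism
with open kernel. -/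
theorem exists_extA (D : IntermediateField k (AlgebraicClosure k)) [FiniteDimensional k D]
    [NumberField D] {A : Type} [Group A] (f : D.fixingSubgroup →* A)
    (hs : Function.Surjective f) (hf : IsOpen (f.ker : Set D.fixingSubgroup)) :
    ∃ (M : IntermediateField D (AlgebraicClosure k)) (_ : NumberField M) (_ : IsGalois D M),
      Nonempty (Gal(M/D) ≃* A) ∧
      ∀ Q : Ideal (OO k), Q.IsMaximal →
        (∀ τ : D.fixingSubgroup, τ.1 ∈ inertia Q → f τ = 1) →
          (Q.under (𝓞 M)).ramificationIdx (𝓞 D) = 1 := by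
  classical
  set e : D.fixingSubgroup ≃* Gal(AlgebraicClosure k/D) :=
    IntermediateField.fixingSubgroupEquiv D with he
  set f' : Gal(AlgebraicClosure k/D) →* A := f.comp e.symm.toMonoidHom with hf'
  set N : Subgroup (GF k) := f.ker.map (D.fixingSubgroup).subtype with hN
  have hHopen : IsOpen (D.fixingSubgroup : Set (GF k)) :=
    IntermediateField.fixingSubgroup_isOpen D
  have hNopen : IsOpen (N : Set (GF k)) := by
    rw [hN, Subgroup.coe_map]
    exact hHopen.isOpenMap_subtype_val _ hf
  have hNclosed : IsClosed (N : Set (GF k)) := Subgroup.isClosed_of_isOpen _ hNopen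
  set L : IntermediateField k (AlgebraicClosure k) := IntermediateField.fixedField N with hL
  have hfixL : L.fixingSubgroup = N := InfiniteGalois.fixingSubgroup_fixedField ⟨N, hNclosed⟩
  haveI hLfin : FiniteDimensional k L :=
    (InfiniteGalois.isOpen_iff_finite L).1 (by rw [hfixL]; exact hNopen)
  haveI hLnf : NumberField L := NumberField.of_module_finite k L
  have hKL : D ≤ L := by
    rw [hL, IntermediateField.le_iff_le, hN]
    intro x hx
    obtain ⟨y, _, rfl⟩ := Subgroup.mem_map.1 hx
    exact y.2
  set M : IntermediateField D (AlgebraicClosure k) := IntermediateField.extendScalars hKL with hM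
  have hMmem : ∀ x, x ∈ M ↔ x ∈ L := fun x => IntermediateField.mem_extendScalars hKL
  have hfixM : M.fixingSubgroup = f'.ker := by
    ext σ
    have e1 : σ ∈ M.fixingSubgroup ↔
        ((e.symm σ : D.fixingSubgroup) : GF k) ∈ L.fixingSubgroup := by
      rw [IntermediateField.mem_fixingSubgroup_iff, IntermediateField.mem_fixingSubgroup_iff]
      constructor
      · intro h x hx
        exact h x ((hMmem x).2 hx)
      · intro h x hx
        exact h x ((hMmem x).1 hx)
    rw [e1, hfixL, hN, Subgroup.mem_map]
    constructor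
    · rintro ⟨y, hy, hyσ⟩
      have : y = e.symm σ := Subtype.ext hyσ
      rw [this] at hy
      exact hy
    · intro h
      exact ⟨e.symm σ, h, rfl⟩
  haveI hMfin : NumberField M := by
    let eLM : L ≃+* M :=
      { toFun := fun x => ⟨x.1, (hMmem _).2 x.2⟩
        invFun := fun x => ⟨x.1, (hMmem _).1 x.2⟩
        left_inv := fun x => rfl
        right_inv := fun x => rfl
        map_mul' := fun x y => rfl
        map_add' := fun x y => rfl }
    have hMfinQ : FiniteDimensional ℚ M := by
      let el : L ≃ₐ[ℚ] M := AlgEquiv.ofRingEquiv (f := eLM) (fun r => by simp)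
      exact el.toLinearEquiv.finiteDimensional
    exact ⟨⟩
  haveI hGalD : IsGalois D (AlgebraicClosure k) := inferInstance
  have hMgal : IsGalois D M := by
    apply (InfiniteGalois.normal_iff_isGalois M).1
    rw [hfixM]
    infer_instance
  have hsurj : Function.Surjective f' := hs.comp e.symm.surjective
  have e1 : Gal(M/D) ≃* A := by
    have a1 : Gal(AlgebraicClosure k/D) ⧸ M.fixingSubgroup ≃* Gal(M/D) :=
      (QuotientGroup.quotientMulEquivOfEq M.restrictNormalHom_ker.symm).trans
        (QuotientGroup.quotientKerEquivOfSurjective _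
          (AlgEquiv.restrictNormalHom_surjective (AlgebraicClosure k)))
    have a2 : Gal(AlgebraicClosure k/D) ⧸ M.fixingSubgroup ≃* A :=
      (QuotientGroup.quotientMulEquivOfEq hfixM).trans
        (QuotientGroup.quotientKerEquivOfSurjective f' hsurj)
    exact a1.symm.trans a2
  refine ⟨M, hMfin, hMgal, ⟨e1⟩, fun Q hQ h => ?_⟩
  haveI hQm := hQ
  haveI : Algebra.IsIntegral (𝓞 M) (𝓞 (AlgebraicClosure k)) :=
    Algebra.IsIntegral.tower_top (R := ℤ)
  have hPm : (Q.under (𝓞 M)).IsMaximal := Ideal.IsMaximal.under (𝓞 M) Q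
  have hover : Q.LiesOver (Q.under (𝓞 M)) := ⟨rfl⟩
  rw [← card_inertia (F := D) hPm]
  have hbot : (Q.under (𝓞 M)).inertia Gal(M/D) = ⊥ := by
    rw [eq_bot_iff]
    intro γ hγ
    rw [Subgroup.mem_bot]
    obtain ⟨τ, hτ, hτγ⟩ := lift_inertia M (Q.under (𝓞 M)) hPm Q hQm hover γ hγ
    have h1 : f (e.symm τ) = 1 := h (e.symm τ) (fun x => hτ x)
    have h2 : τ ∈ M.fixingSubgroup := by
      rw [hfixM]
      exact (MonoidHom.mem_ker).2 h1
    rw [← M.restrictNormalHom_ker, MonoidHom.mem_ker] at h2
    rw [← hτγ, h2]
  rw [hbot]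
  simp

/-- Every maximal ideal of a ring of integers lies below a maximal ideal of the ring of all
algebraic integers. -/
theorem exists_above (D : IntermediateField k (AlgebraicClosure k))
    (M : IntermediateField D (AlgebraicClosure k)) (P : Ideal (𝓞 M)) (hP : P.IsMaximal) :
    ∃ Q : Ideal (OO k), Q.IsMaximal ∧ Q.under (𝓞 M) = P := by
  haveI : Algebra.IsIntegral (𝓞 M) (𝓞 (AlgebraicClosure k)) :=
    Algebra.IsIntegral.tower_top (R := ℤ)
  obtain ⟨Q, hQ, hQP⟩ := Ideal.exists_ideal_over_maximal_of_isIntegral
    (S := 𝓞 (AlgebraicClosure k)) P (by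
      rw [(RingHom.injective_iff_ker_eq_bot _).1
        (FaithfulSMul.algebraMap_injective (𝓞 M) (𝓞 (AlgebraicClosure k)))]
      exact bot_le)
  exact ⟨Q, hQ, hQP⟩

end Pool.Agent.K4H28.CF
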