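import Pool.Agent.K4H28.CF.Chi
import Pool.Agent.H17.HKF.FI
import Pool.Agent.H33MU.Herb

/-!
# No unramified additive characters

The Herbrand quotient of the units is due to helper33 (`Pool.Agent.H33MU`), the bound for the degree of
unramified cyclic extensions to helper17 (`Pool.Agent.H17.HKF.FI`).
-/

set_option autoImplicit false

open NumberField

namespace Pool.Agent.K4H28.CF

theorem fi : FI := by
  intro K L _ _ _ _ _ _ _ p k _ hcard hσ hur
  have : IsCyclic Gal(L/K) := ⟨hσ⟩
  exact Pool.Agent.H17.HKF.first_ineq Pool.Agent.H33MU.main hcard hur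

/-- **A number field has no unramified additive characters.** -/
theorem noUnr (K Ω : Type) [Field K] [NumberField K] [Field Ω] [CharZero Ω]
    [TopologicalSpace Ω] [T2Space Ω] : Pool.Agent.K4H28.MT.NoUnr K Ω :=
  noUnr_of fi K Ω

end Pool.Agent.K4H28.CF
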